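import Pool.Agent.W2helper94.CY.Defs

/-!
# Project CY, piece A3: the expansion of the normal forms and the five degrees
-/

set_option autoImplicit false

namespace Pool.Agent.W2helper12.CY

open Polynomial Finset Pool.Agent.W2helper94.CY

lemma rel1 (p : Par) : p.a1 * p.n1 = p.a13 * p.n3 + p.a14 * p.n4 := by
  simp only [Par.n1, Par.n2, Par.n3, Par.n4, Par.a1, Par.a2, Par.a3, Par.a4]; ring

lemma rel2 (p : Par) : p.a2 * p.n2 = p.a21 * p.n1 + p.a24 * p.n4 := by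
  simp only [Par.n1, Par.n2, Par.n3, Par.n4, Par.a1, Par.a2, Par.a3, Par.a4]; ring

lemma rel3 (p : Par) : p.a3 * p.n3 = p.a31 * p.n1 + p.a32 * p.n2 := by
  simp only [Par.n1, Par.n2, Par.n3, Par.n4, Par.a1, Par.a2, Par.a3, Par.a4]; ring

lemma rel4 (p : Par) : p.a4 * p.n4 = p.a42 * p.n2 + p.a43 * p.n3 := by
  simp only [Par.n1, Par.n2, Par.n3, Par.n4, Par.a1, Par.a2, Par.a3, Par.a4]; ring

lemma rel5 (p : Par) : p.a43 * p.n3 + p.a21 * p.n1 = p.a32 * p.n2 + p.a14 * p.n4 := by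
  simp only [Par.n1, Par.n2, Par.n3, Par.n4, Par.a1, Par.a2, Par.a3, Par.a4]; ring

lemma n1_pos (p : Par) : 0 < p.n1 := by
  have := p.h21; have := p.h31; have := p.h32; have := p.h42
  have := p.h13; have := p.h43; have := p.h14; have := p.h24
  simp only [Par.n1, Par.a2, Par.a3]; positivity

lemma n2_pos (p : Par) : 0 < p.n2 := by
  have := p.h21; have := p.h31; have := p.h32; have := p.h42
  have := p.h13; have := p.h43; have := p.h14; have := p.h24
  simp only [Par.n2, Par.a3, Par.a4]; positivity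

lemma n3_pos (p : Par) : 0 < p.n3 := by
  have := p.h21; have := p.h31; have := p.h32; have := p.h42
  have := p.h13; have := p.h43; have := p.h14; have := p.h24
  simp only [Par.n3, Par.a1, Par.a4]; positivity

lemma n4_pos (p : Par) : 0 < p.n4 := by
  have := p.h21; have := p.h31; have := p.h32; have := p.h42
  have := p.h13; have := p.h43; have := p.h14; have := p.h24
  simp only [Par.n4, Par.a1, Par.a2]; positivity

lemma m0_eq (p : Par) : p.m 0 = p.a13 * p.n3 + p.a14 * p.n4 := rel1 p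

lemma m1_eq (p : Par) : p.m 1 = p.a32 * p.n2 + p.a42 * p.n2 := by
  change p.a2 * p.n2 = _
  rw [Par.a2]; ring

lemma m2_eq (p : Par) : p.m 2 = p.a13 * p.n3 + p.a43 * p.n3 := by
  change p.a3 * p.n3 = _
  rw [Par.a3]; ring

lemma m3_eq (p : Par) : p.m 3 = p.a42 * p.n2 + p.a43 * p.n3 := rel4 p

lemma m4_eq (p : Par) : p.m 4 = p.a32 * p.n2 + p.a14 * p.n4 := rel5 p

lemma c_eq (p : Par) : p.c = p.a32 * p.n2 + p.a42 * p.n2 + (p.a13 * p.n3 + p.a43 * p.n3) +
    p.a14 * p.n4 := by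
  rw [Par.c, Par.a2, Par.a3]; ring

theorem sum_m (p : Par) : p.m 0 + p.m 1 + p.m 2 + p.m 3 + p.m 4 = 2 * p.c := by
  rw [m0_eq, m1_eq, m2_eq, m3_eq, m4_eq, c_eq]; ring

theorem m_pos (p : Par) (i : Fin 5) : 0 < p.m i := by
  have h1 := Nat.mul_pos p.h32 (n2_pos p)
  have h2 := Nat.mul_pos p.h42 (n2_pos p)
  have h3 := Nat.mul_pos p.h13 (n3_pos p)
  fin_cases i
  · change 0 < p.m 0; rw [m0_eq]; omega
  · change 0 < p.m 1; rw [m1_eq]; omega
  · change 0 < p.m 2; rw [m2_eq]; omega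
  · change 0 < p.m 3; rw [m3_eq]; omega
  · change 0 < p.m 4; rw [m4_eq]; omega

/-- the sums of two different degrees are smaller than `c`, with two exceptions -/
theorem pair_lt (p : Par) (i j : Fin 5) (hij : i ≠ j) (h1 : ¬ (i = 0 ∧ j = 2)) (h2 : ¬ (i = 2 ∧ j = 0))
    (h3 : ¬ (i = 1 ∧ j = 3)) (h4 : ¬ (i = 3 ∧ j = 1)) : p.m i + p.m j < p.c := by
  have g32 := Nat.mul_pos p.h32 (n2_pos p)
  have g42 := Nat.mul_pos p.h42 (n2_pos p)
  have g13 := Nat.mul_pos p.h13 (n3_pos p)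
  have g43 := Nat.mul_pos p.h43 (n3_pos p)
  have g14 := Nat.mul_pos p.h14 (n4_pos p)
  have g24 := Nat.mul_pos p.h24 (n4_pos p)
  have g21 := Nat.mul_pos p.h21 (n1_pos p)
  have g31 := Nat.mul_pos p.h31 (n1_pos p)
  have e0 := m0_eq p
  have e1 := m1_eq p
  have e2 := m2_eq p
  have e3 := m3_eq p
  have e4 := m4_eq p
  have ec := c_eq p
  have r1 := rel1 p
  have r2 := rel2 p
  have r3 := rel3 p
  have r4 := rel4 p
  have r5 := rel5 p
  rw [Par.a1, add_mul] at r1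
  rw [Par.a2, add_mul] at r2
  rw [Par.a3, add_mul] at r3
  rw [Par.a4, add_mul] at r4
  fin_cases i <;> fin_cases j <;> first | (exfalso; simp at hij h1 h2 h3 h4; done) | skip
  all_goals simp only [Fin.zero_eta, Fin.mk_one, Fin.reduceFinMk]
  all_goals omega

/-- uses the uniqueness of the normal forms -/
theorem pair_ne (p : Par) (hinj : ∀ q q' : ℕ × ℕ × ℕ, q ∈ p.NF → q' ∈ p.NF → ∀ k k' : ℕ,
    p.wt q + k * p.n1 = p.wt q' + k' * p.n1 → q = q' ∧ k = k') :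
    p.m 0 + p.m 2 ≠ p.c ∧ p.m 1 + p.m 3 ≠ p.c := by
  have g32 := p.h32
  have g42 := p.h42
  have g13 := p.h13
  have g43 := p.h43
  have g14 := p.h14
  have g24 := p.h24
  have r2 := rel2 p
  have r3 := rel3 p
  rw [Par.a2, add_mul] at r2
  rw [Par.a3, add_mul] at r3
  have m1 : ((0, 0, p.a24) : ℕ × ℕ × ℕ) ∈ p.NF := by
    simp only [Par.NF, mem_union, mem_product, mem_range, mem_Ico, Par.a2, Par.a3, Par.a4]
    omega
  constructor
  · intro h
    rw [m0_eq, m2_eq, c_eq] at h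
    have h2 := hinj (0, 0, p.a24) (0, p.a13, 0) m1 (by
      simp only [Par.NF, mem_union, mem_product, mem_range, mem_Ico, Par.a2, Par.a3, Par.a4]
      omega) p.a21 0 (by simp only [Par.wt]; omega)
    have h3 := congrArg (fun q : ℕ × ℕ × ℕ => q.2.1) h2.1
    simp only at h3
    omega
  · intro h
    rw [m1_eq, m3_eq, c_eq] at h
    have e4 := rel4 p
    rw [Par.a4, add_mul] at e4
    have h2 := hinj (p.a32, 0, 0) (0, 0, p.a24) (by
      simp only [Par.NF, mem_union, mem_product, mem_range, mem_Ico, Par.a2, Par.a3, Par.a4]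
      omega) m1 p.a31 0 (by simp only [Par.wt]; omega)
    have h3 := congrArg (fun q : ℕ × ℕ × ℕ => q.1) h2.1
    simp only at h3
    omega

lemma geom_mul (n k : ℕ) : (∑ a ∈ range k, (X : ℤ[X]) ^ (a * n)) * (1 - X ^ n) = 1 - X ^ (k * n) := by
  have h := geom_sum_mul_neg ((X : ℤ[X]) ^ n) k
  rw [← pow_mul, mul_comm n k] at h
  rw [← h]
  congr 1
  exact Finset.sum_congr rfl fun a _ => by rw [← pow_mul, mul_comm]

lemma geom_Ico (n j k : ℕ) (h : j ≤ k) :
    (∑ a ∈ Ico j k, (X : ℤ[X]) ^ (a * n)) * (1 - X ^ n) = X ^ (j * n) - X ^ (k * n) := by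
  have h1 := Finset.sum_range_add_sum_Ico (fun a => (X : ℤ[X]) ^ (a * n)) h
  have h2 := geom_mul n j
  have h3 := geom_mul n k
  rw [← h1, add_mul, h2] at h3
  linear_combination h3

lemma sum_box (p : Par) (s t u : Finset ℕ) :
    ∑ q ∈ s ×ˢ t ×ˢ u, (X : ℤ[X]) ^ p.wt q = (∑ a ∈ s, X ^ (a * p.n2)) *
      ((∑ b ∈ t, X ^ (b * p.n3)) * ∑ d ∈ u, X ^ (d * p.n4)) := by
  rw [Finset.sum_product, Finset.sum_mul]
  refine Finset.sum_congr rfl fun a _ => ?_
  rw [Finset.sum_product, Finset.sum_mul, Finset.mul_sum]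
  refine Finset.sum_congr rfl fun b _ => ?_
  rw [Finset.mul_sum, Finset.mul_sum]
  refine Finset.sum_congr rfl fun d _ => ?_
  rw [Par.wt, pow_add, pow_add, mul_assoc]

theorem nf_expand (p : Par) :
    (∑ q ∈ p.NF, (X : ℤ[X]) ^ p.wt q) * ((1 - X ^ p.n2) * (1 - X ^ p.n3) * (1 - X ^ p.n4)) =
      numer5 (p.m 0) (p.m 1) (p.m 2) (p.m 3) (p.m 4) p.c := by
  have hdis : Disjoint (range p.a2 ×ˢ range p.a3 ×ˢ range p.a14)
      (range p.a32 ×ˢ range p.a13 ×ˢ Ico p.a14 p.a4) := by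
    rw [Finset.disjoint_left]
    rintro ⟨a, b, d⟩ h1 h2
    simp only [mem_product, mem_range, mem_Ico] at h1 h2
    omega
  rw [Par.NF, Finset.sum_union hdis, sum_box, sum_box]
  have e2 := geom_mul p.n2 p.a2
  have e3 := geom_mul p.n3 p.a3
  have e4 := geom_mul p.n4 p.a14
  have e2' := geom_mul p.n2 p.a32
  have e3' := geom_mul p.n3 p.a13
  have e4' := geom_Ico p.n4 p.a14 p.a4 (by rw [Par.a4]; omega)
  have key : ∀ A B D A' B' D' x y z : ℤ[X], (A * (B * D) + A' * (B' * D')) * (x * y * z) =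
      (A * x) * (B * y) * (D * z) + (A' * x) * (B' * y) * (D' * z) := by
    intros; ring
  rw [key, e2, e3, e4, e2', e3', e4']
  have r4 := rel4 p
  have f0 : p.c - p.m 0 = p.a32 * p.n2 + p.a42 * p.n2 + p.a43 * p.n3 := by
    rw [m0_eq, c_eq]; omega
  have f1 : p.c - p.m 1 = p.a13 * p.n3 + p.a43 * p.n3 + p.a14 * p.n4 := by
    rw [m1_eq, c_eq]; omega
  have f2 : p.c - p.m 2 = p.a32 * p.n2 + p.a42 * p.n2 + p.a14 * p.n4 := by
    rw [m2_eq, c_eq]; omega
  have f3 : p.c - p.m 3 = p.a32 * p.n2 + p.a13 * p.n3 + p.a14 * p.n4 := by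
    rw [m3_eq, c_eq]; omega
  have f4 : p.c - p.m 4 = p.a42 * p.n2 + p.a13 * p.n3 + p.a43 * p.n3 := by
    rw [m4_eq, c_eq]; omega
  have f5 : p.a2 * p.n2 = p.a32 * p.n2 + p.a42 * p.n2 := m1_eq p
  have f6 : p.a3 * p.n3 = p.a13 * p.n3 + p.a43 * p.n3 := m2_eq p
  rw [numer5, f0, f1, f2, f3, f4, m0_eq, m1_eq, m2_eq, m3_eq, m4_eq, c_eq, f5, f6, r4]
  simp only [pow_add]
  ring

end Pool.Agent.W2helper12.CY
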