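import Pool.Agent.W2helper94.CY.Rot
import Pool.Agent.W2helper12.CY.A3

/-!
# Project CY, piece F4: the cyclic symmetry
-/

set_option autoImplicit false

namespace Pool.Agent.W2helper12.CY

open Pool.Agent.W2helper94.CY

theorem rot_n (p : Par) : p.rot.n1 = p.n4 ∧ p.rot.n2 = p.n1 ∧ p.rot.n3 = p.n2 ∧ p.rot.n4 = p.n3 := by
  refine ⟨?_, ?_, ?_, ?_⟩ <;>
  · simp only [Par.n1, Par.n2, Par.n3, Par.n4, Par.a1, Par.a2, Par.a3, Par.a4, Par.rot]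
    ring

theorem rot_S (p : Par) : p.rot.S = p.S := by
  obtain ⟨h1, h2, h3, h4⟩ := rot_n p
  unfold Par.S
  rw [h1, h2, h3, h4]
  congr 1
  ext x
  simp only [Set.mem_insert_iff, Set.mem_singleton_iff]
  tauto

theorem rot_m (p : Par) : p.rot.m 0 = p.m 3 ∧ p.rot.m 1 = p.m 0 ∧ p.rot.m 2 = p.m 1 ∧
    p.rot.m 3 = p.m 2 ∧ p.rot.m 4 = p.m 4 := by
  obtain ⟨h1, h2, h3, h4⟩ := rot_n p
  refine ⟨?_, ?_, ?_, ?_, ?_⟩
  · change p.rot.a1 * p.rot.n1 = p.a4 * p.n4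
    rw [h1]; rfl
  · change p.rot.a2 * p.rot.n2 = p.a1 * p.n1
    rw [h2]; rfl
  · change p.rot.a3 * p.rot.n3 = p.a2 * p.n2
    rw [h3, Par.a3, Par.a2, Nat.add_comm]; rfl
  · change p.rot.a4 * p.rot.n4 = p.a3 * p.n3
    rw [h4, Par.a4, Par.a3, Nat.add_comm]; rfl
  · change p.rot.a43 * p.rot.n3 + p.rot.a21 * p.rot.n1 = p.a43 * p.n3 + p.a21 * p.n1
    rw [h3, h1, rel5]; rfl

theorem rot_c (p : Par) : p.rot.c = p.c := by
  have h := sum_m p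
  have h' := sum_m p.rot
  obtain ⟨h0, h1, h2, h3, h4⟩ := rot_m p
  rw [h0, h1, h2, h3, h4] at h'
  omega

end Pool.Agent.W2helper12.CY
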